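import Pool.Agent.THS.StmtsB

/-!
# THS, row LGR (Lagrange)
-/

namespace Pool.Agent.THS.H64

open Pool.Agent.THS

/-- **LGR** -/
theorem lgr : LgrStatement := by
  intro N hN
  obtain ⟨a, b, c, d, h⟩ := Nat.sum_four_squares (2 * N - 1)
  refine ⟨![1, a, b, c, d], rfl, ?_⟩
  simp only [Fin.sum_univ_five, Matrix.cons_val]
  omega

end Pool.Agent.THS.H64
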